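import Pool.Agent.Helper48.KGameDefs

set_option autoImplicit false

namespace Pool.Agent.Helper48.KGame

open Set Topology

/-! ### Easy implications between the games -/

lemma not_p1_fin_of_not_p1_one {X : Type*} [TopologicalSpace X] (h : ¬ P1WinsGOne X) :
    ¬ P1WinsGFin X := by
  rintro ⟨σ, hσ, hwin⟩
  apply h
  refine ⟨fun s => σ (s.map fun U => {U}), fun s => hσ _, ?_⟩
  intro U hU hcov
  apply hwin (fun n => {U n})
  · intro n
    refine ⟨Set.finite_singleton _, ?_⟩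
    have h1 : U n ∈ σ (((List.range n).map U).map fun U => {U}) := hU n
    rw [List.map_map] at h1
    exact Set.singleton_subset_iff.2 h1
  · have : (⋃ n, ({U n} : Set (Set X))) = Set.range U := by
      ext V; simp [eq_comm]
    rw [this]; exact hcov

lemma not_p2_one_of_not_p2_fin {X : Type*} [TopologicalSpace X] (h : ¬ P2WinsGFin X) :
    ¬ P2WinsGOne X := by
  rintro ⟨τ, hτ, hwin⟩
  apply h
  refine ⟨fun s => {τ s}, ?_, ?_⟩
  · intro s C hs hC
    exact ⟨Set.finite_singleton _, by simpa using hτ s C hs hC⟩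
  · intro C hC
    have := hwin C hC
    have e : (⋃ n, ({τ ((List.range (n + 1)).map C)} : Set (Set X)))
        = Set.range fun n => τ ((List.range (n + 1)).map C) := by
      ext V; simp [eq_comm]
    rw [e]; exact this

/-! ### Orders of type `ω₁` -/

/-- Every initial segment is countable, every countable set has a strict upper bound. -/
structure OmLike (Ω : Type) [LinearOrder Ω] : Prop where
  ctbl : ∀ a : Ω, (Iio a).Countable
  bdd : ∀ s : Set Ω, s.Countable → ∃ b, ∀ x ∈ s, x < b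

/-- A limit point of the order. -/
def Lim {Ω : Type} [LinearOrder Ω] (δ : Ω) : Prop :=
  (∃ γ, γ < δ) ∧ ∀ γ < δ, ∃ γ' < δ, γ < γ'

section Order

variable {Ω : Type} [LinearOrder Ω]

lemma OmLike.ctblc (h : OmLike Ω) (a : Ω) : (Iic a).Countable := by
  obtain ⟨b, hb⟩ := h.bdd {a} (Set.countable_singleton a)
  refine (h.ctbl b).mono ?_
  intro x hx
  exact lt_of_le_of_lt hx (hb a rfl)

lemma Lim.exists_above_finite {δ : Ω} (hδ : Lim δ) {s : Set Ω} (hs : s.Finite)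
    (hsub : ∀ x ∈ s, x < δ) : ∃ β < δ, ∀ x ∈ s, x < β := by
  induction s, hs using Set.Finite.induction_on with
  | empty =>
    obtain ⟨γ, hγ⟩ := hδ.1
    exact ⟨γ, hγ, by simp⟩
  | @insert a s _ _ ih =>
    obtain ⟨β, hβ, hβs⟩ := ih (fun x hx => hsub x (Set.mem_insert_of_mem _ hx))
    have ha : a < δ := hsub a (Set.mem_insert _ _)
    obtain ⟨β', hβ', hlt⟩ := hδ.2 (max a β) (max_lt ha hβ)
    refine ⟨β', hβ', ?_⟩
    intro x hx
    rcases Set.mem_insert_iff.1 hx with rfl | hx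
    · exact lt_of_le_of_lt (le_max_left _ _) hlt
    · exact (hβs x hx).trans (lt_of_le_of_lt (le_max_right _ _) hlt)

/-- `δ` is closed under the list function `g`. -/
def ClosedUnder (g : List Ω → Ω) (δ : Ω) : Prop :=
  ∀ l : List Ω, (∀ x ∈ l, x < δ) → g l < δ

/-- Stationarity, in terms of closure points. -/
def Stat (S : Set Ω) : Prop := ∀ g : List Ω → Ω, ∃ δ ∈ S, ClosedUnder g δ

lemma countable_lists (h : OmLike Ω) (a : Ω) : {l : List Ω | ∀ x ∈ l, x ≤ a}.Countable := by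
  have hc := h.ctblc a
  have : Countable (Iic a) := hc.to_subtype
  have : {l : List Ω | ∀ x ∈ l, x ≤ a} ⊆ Set.range (fun l : List (Iic a) => l.map Subtype.val) := by
    intro l hl
    refine ⟨l.attach.map (fun x => ⟨x.1, hl x.1 x.2⟩), ?_⟩
    simp [List.map_map, Function.comp_def]
  exact (Set.countable_range _).mono this

lemma exists_closed [WellFoundedLT Ω] (h : OmLike Ω) (g : List Ω → Ω) (ξ : Ω) :
    ∃ δ, ξ < δ ∧ Lim δ ∧ ClosedUnder g δ := by
  have hG : ∀ β : Ω, ∃ b, β < b ∧ ∀ l : List Ω, (∀ x ∈ l, x ≤ β) → g l < b := by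
    intro β
    obtain ⟨b, hb⟩ := h.bdd (insert β (g '' {l : List Ω | ∀ x ∈ l, x ≤ β}))
      (((countable_lists h β).image g).insert β)
    exact ⟨b, hb β (Set.mem_insert _ _),
      fun l hl => hb _ (Set.mem_insert_of_mem _ (Set.mem_image_of_mem g hl))⟩
  choose G hG1 hG2 using hG
  set a : ℕ → Ω := fun n => G^[n] ξ with ha
  have hsucc : ∀ n, a (n + 1) = G (a n) := by
    intro n; simp [ha, Function.iterate_succ_apply']
  have hmono : StrictMono a := by
    apply strictMono_nat_of_lt_succ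
    intro n; rw [hsucc]; exact hG1 _
  have hne : {b : Ω | ∀ n, a n < b}.Nonempty := by
    obtain ⟨b, hb⟩ := h.bdd (Set.range a) (Set.countable_range a)
    exact ⟨b, fun n => hb _ (Set.mem_range_self n)⟩
  set δ : Ω := WellFounded.min (wellFounded_lt (α := Ω)) _ hne with hδ
  have hδ1 : ∀ n, a n < δ := WellFounded.min_mem (wellFounded_lt (α := Ω)) _ hne
  have hδ2 : ∀ γ < δ, ∃ n, γ ≤ a n := by
    intro γ hγ
    by_contra hcon
    push Not at hcon
    exact WellFounded.not_lt_min (wellFounded_lt (α := Ω)) {b : Ω | ∀ n, a n < b}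
      (show γ ∈ {b : Ω | ∀ n, a n < b} from hcon) hγ
  refine ⟨δ, ?_, ⟨⟨_, hδ1 0⟩, ?_⟩, ?_⟩
  · have := hδ1 0
    simpa [ha] using this
  · intro γ hγ
    obtain ⟨n, hn⟩ := hδ2 γ hγ
    exact ⟨a (n + 1), hδ1 _, lt_of_le_of_lt hn (hmono (Nat.lt_succ_self n))⟩
  · intro l hl
    have : ∃ n, ∀ x ∈ l, x ≤ a n := by
      induction l with
      | nil => exact ⟨0, by simp⟩
      | cons y l ih =>
        obtain ⟨n, hn⟩ := ih (fun x hx => hl x (List.mem_cons_of_mem _ hx))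
        obtain ⟨m, hm⟩ := hδ2 y (hl y List.mem_cons_self)
        refine ⟨max n m, ?_⟩
        intro x hx
        rcases List.mem_cons.1 hx with rfl | hx
        · exact hm.trans (hmono.monotone (le_max_right _ _))
        · exact (hn x hx).trans (hmono.monotone (le_max_left _ _))
    obtain ⟨n, hn⟩ := this
    have := hG2 (a n) l hn
    rw [← hsucc] at this
    exact this.trans (hδ1 _)

lemma Stat.exists_lim (h : OmLike Ω) {S : Set Ω} (hS : Stat S) (g : List Ω → Ω) :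
    ∃ δ ∈ S, Lim δ ∧ ClosedUnder g δ := by
  have : ∀ l : List Ω, ∃ b, g l < b ∧ ∀ x ∈ l, x < b := by
    intro l
    obtain ⟨b, hb⟩ := h.bdd (insert (g l) {x | x ∈ l}) ((List.finite_toSet l).countable.insert _)
    exact ⟨b, hb _ (Set.mem_insert _ _), fun x hx => hb _ (Set.mem_insert_of_mem _ hx)⟩
  choose G hG1 hG2 using this
  obtain ⟨δ, hδS, hδ⟩ := hS G
  refine ⟨δ, hδS, ⟨⟨G [], hδ [] (by simp)⟩, ?_⟩, fun l hl => (hG1 l).trans (hδ l hl)⟩
  intro γ hγ
  refine ⟨G [γ], hδ [γ] (by simpa using hγ), hG2 [γ] γ (by simp)⟩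

lemma stat_of_iUnion (h : OmLike Ω) {A : ℕ → Set Ω} (hA : Stat (⋃ n, A n)) : ∃ n, Stat (A n) := by
  by_contra hcon
  push Not at hcon
  have : ∀ n, ∃ g : List Ω → Ω, ∀ δ ∈ A n, ¬ ClosedUnder g δ := by
    intro n
    have := hcon n
    unfold Stat at this
    push Not at this
    exact this
  choose g hg using this
  have : ∀ l : List Ω, ∃ b, ∀ n, g n l < b := by
    intro l
    obtain ⟨b, hb⟩ := h.bdd (Set.range fun n => g n l) (Set.countable_range _)
    exact ⟨b, fun n => hb _ (Set.mem_range_self n)⟩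
  choose G hG using this
  obtain ⟨δ, hδ, hcl⟩ := hA G
  obtain ⟨n, hn⟩ := Set.mem_iUnion.1 hδ
  exact hg n δ hn (fun l hl => (hG l n).trans (hcl l hl))

lemma Stat.mono {S T : Set Ω} (hS : Stat S) (hST : S ⊆ T) : Stat T := by
  intro g
  obtain ⟨δ, hδ, hcl⟩ := hS g
  exact ⟨δ, hST hδ, hcl⟩

lemma exists_bistationary [WellFoundedLT Ω] (h : OmLike Ω) :
    ∃ S : Set Ω, Stat S ∧ Stat Sᶜ := by
  have he : ∀ α : Ω, ∃ e : Ω → ℕ, InjOn e (Iio α) := fun α =>
    Set.countable_iff_exists_injOn.1 (h.ctbl α)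
  choose e he using he
  have hA : ∀ ξ : Ω, ∃ n : ℕ, Stat {α | ξ < α ∧ e α ξ = n} := by
    intro ξ
    apply stat_of_iUnion h
    intro g
    obtain ⟨δ, hδ, _, hcl⟩ := exists_closed h g ξ
    exact ⟨δ, Set.mem_iUnion.2 ⟨e δ ξ, hδ, rfl⟩, hcl⟩
  choose n hn using hA
  have hninj : ¬ Function.Injective n := by
    intro hinj
    have : Countable Ω := hinj.countable
    obtain ⟨b, hb⟩ := h.bdd Set.univ Set.countable_univ
    exact lt_irrefl b (hb b (Set.mem_univ b))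
  rw [Function.not_injective_iff] at hninj
  obtain ⟨ξ, ξ', hnn, hne⟩ := hninj
  refine ⟨{α | ξ < α ∧ e α ξ = n ξ}, hn ξ, (hn ξ').mono ?_⟩
  rintro α ⟨h1, h2⟩ ⟨h3, h4⟩
  apply hne
  apply he α h3 h1
  rw [h4, h2, hnn]

/-- A ladder at `δ`. -/
def IsLadder (A : Set Ω) (δ : Ω) : Prop :=
  A ⊆ Iio δ ∧ (∀ γ < δ, ∃ a ∈ A, γ < a) ∧ ∀ γ < δ, (A ∩ Iio γ).Finite

lemma exists_ladder (h : OmLike Ω) {δ : Ω} (hδ : Lim δ) : ∃ A, IsLadder A δ := by
  obtain ⟨a, ha⟩ := (h.ctbl δ).exists_eq_range hδ.1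
  have haδ : ∀ n, a n < δ := by
    intro n
    have : a n ∈ Iio δ := by rw [ha]; exact Set.mem_range_self n
    exact this
  have hnx : ∀ x : Ω, ∃ y, x < δ → (x < y ∧ y < δ) := by
    intro x
    by_cases hx : x < δ
    · obtain ⟨y, hy, hxy⟩ := hδ.2 x hx
      exact ⟨y, fun _ => ⟨hxy, hy⟩⟩
    · exact ⟨x, fun h' => absurd h' hx⟩
  choose nx hnx using hnx
  let b : ℕ → Ω := fun n => Nat.rec (a 0) (fun k bk => nx (max bk (a k))) n
  have hb0 : b 0 = a 0 := rfl
  have hbs : ∀ n, b (n + 1) = nx (max (b n) (a n)) := fun n => rfl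
  have hbδ : ∀ n, b n < δ := by
    intro n
    induction n with
    | zero => exact haδ 0
    | succ n ih => rw [hbs]; exact (hnx _ (max_lt ih (haδ n))).2
  have hmono : StrictMono b := by
    apply strictMono_nat_of_lt_succ
    intro n
    rw [hbs]
    exact lt_of_le_of_lt (le_max_left _ _) (hnx _ (max_lt (hbδ n) (haδ n))).1
  have hab : ∀ n, a n < b (n + 1) := by
    intro n
    rw [hbs]
    exact lt_of_le_of_lt (le_max_right _ _) (hnx _ (max_lt (hbδ n) (haδ n))).1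
  refine ⟨Set.range b, ?_, ?_, ?_⟩
  · rintro _ ⟨n, rfl⟩; exact hbδ n
  · intro γ hγ
    have : γ ∈ Set.range a := by rw [← ha]; exact hγ
    obtain ⟨k, rfl⟩ := this
    exact ⟨b (k + 1), ⟨k + 1, rfl⟩, hab k⟩
  · intro γ hγ
    have : γ ∈ Set.range a := by rw [← ha]; exact hγ
    obtain ⟨k, rfl⟩ := this
    refine ((Set.finite_Iic k).image b).subset ?_
    rintro _ ⟨⟨n, rfl⟩, hn⟩
    refine ⟨n, ?_, rfl⟩
    have : b n < b (k + 1) := lt_trans hn (hab k)
    have h3 : n < k + 1 := (StrictMono.lt_iff_lt hmono (a := n) (b := k + 1)).1 this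
    exact Nat.lt_succ_iff.1 h3

end Order

/-! ### The space -/

section Space

variable {Ω : Type} [LinearOrder Ω]

/-- Points of the space: finite subsets and ladders at limit points of `S`. -/
def Pt (S : Set Ω) (L : Ω → Set Ω) : Type :=
  {x : Set Ω // x.Finite ∨ ∃ δ ∈ S, Lim δ ∧ x = L δ}

variable {S : Set Ω} {L : Ω → Set Ω}

/-- The basic neighbourhoods: sets agreeing with `x` below `γ`. -/
def Nb (γ : Ω) (x : Pt S L) : Set (Pt S L) := {y | y.1 ∩ Iio γ = x.1 ∩ Iio γ}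

lemma agree_mono {x y : Set Ω} {γ γ' : Ω} (hle : γ ≤ γ') (h : x ∩ Iio γ' = y ∩ Iio γ') :
    x ∩ Iio γ = y ∩ Iio γ := by
  have e : Iio γ' ∩ Iio γ = Iio γ := Set.inter_eq_right.2 (Set.Iio_subset_Iio hle)
  rw [← e, ← Set.inter_assoc, h, Set.inter_assoc]

lemma Nb_anti {γ γ' : Ω} (hle : γ ≤ γ') (x : Pt S L) : Nb γ' x ⊆ Nb γ x :=
  fun _ hy => agree_mono hle hy

lemma self_mem_Nb (γ : Ω) (x : Pt S L) : x ∈ Nb γ x := rfl

instance [Nonempty Ω] : TopologicalSpace (Pt S L) where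
  IsOpen U := ∀ x ∈ U, ∃ γ, Nb γ x ⊆ U
  isOpen_univ := fun _ _ => ⟨Classical.arbitrary Ω, Set.subset_univ _⟩
  isOpen_inter := by
    intro U V hU hV x hx
    obtain ⟨γ, hγ⟩ := hU x hx.1
    obtain ⟨γ', hγ'⟩ := hV x hx.2
    exact ⟨max γ γ', Set.subset_inter ((Nb_anti (le_max_left _ _) x).trans hγ)
      ((Nb_anti (le_max_right _ _) x).trans hγ')⟩
  isOpen_sUnion := by
    intro s hs x hx
    obtain ⟨U, hU, hxU⟩ := hx
    obtain ⟨γ, hγ⟩ := hs U hU x hxU
    exact ⟨γ, hγ.trans (Set.subset_sUnion_of_mem hU)⟩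

variable [Nonempty Ω]

lemma isOpen_iff' {U : Set (Pt S L)} : IsOpen U ↔ ∀ x ∈ U, ∃ γ, Nb γ x ⊆ U := Iff.rfl

lemma isOpen_Nb (γ : Ω) (x : Pt S L) : IsOpen (Nb γ x) := by
  intro y hy
  refine ⟨γ, ?_⟩
  intro z hz
  exact Eq.trans hz hy

lemma isClosed_Nb (γ : Ω) (x : Pt S L) : IsClosed (Nb γ x) := by
  rw [← isOpen_compl_iff]
  intro y hy
  refine ⟨γ, ?_⟩
  intro z hz hz'
  exact hy (Eq.trans (Eq.symm hz) hz')

lemma exists_sep (h : OmLike Ω) {x y : Pt S L} (hxy : x ≠ y) : ∃ γ, x ∉ Nb γ y := by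
  by_contra hcon
  push Not at hcon
  apply hxy
  apply Subtype.ext
  ext a
  obtain ⟨b, hb⟩ := h.bdd {a} (Set.countable_singleton a)
  have hab : a < b := hb a rfl
  have := hcon b
  have e : x.1 ∩ Iio b = y.1 ∩ Iio b := this
  constructor
  · intro ha
    have : a ∈ y.1 ∩ Iio b := by rw [← e]; exact ⟨ha, hab⟩
    exact this.1
  · intro ha
    have : a ∈ x.1 ∩ Iio b := by rw [e]; exact ⟨ha, hab⟩
    exact this.1

lemma t2 (h : OmLike Ω) : T2Space (Pt S L) := by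
  refine ⟨fun x y hxy => ?_⟩
  obtain ⟨γ, hγ⟩ := exists_sep h hxy
  refine ⟨Nb γ x, Nb γ y, isOpen_Nb _ _, isOpen_Nb _ _, self_mem_Nb _ _, self_mem_Nb _ _, ?_⟩
  rw [Set.disjoint_left]
  intro z hz hz'
  exact hγ (Eq.trans (Eq.symm hz) hz')

lemma isOpen_iInter (h : OmLike Ω) {ι : Type*} [Countable ι] {U : ι → Set (Pt S L)}
    (hU : ∀ i, IsOpen (U i)) : IsOpen (⋂ i, U i) := by
  intro x hx
  have : ∀ i, ∃ γ, Nb γ x ⊆ U i := fun i => hU i x (Set.mem_iInter.1 hx i)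
  choose γ hγ using this
  obtain ⟨b, hb⟩ := h.bdd (Set.range γ) (Set.countable_range γ)
  refine ⟨b, Set.subset_iInter fun i => ?_⟩
  exact (Nb_anti (hb _ (Set.mem_range_self i)).le x).trans (hγ i)

lemma basis_clopen : TopologicalSpace.IsTopologicalBasis {s : Set (Pt S L) | IsClopen s} := by
  apply TopologicalSpace.isTopologicalBasis_of_isOpen_of_nhds
  · intro u hu; exact hu.isOpen
  · intro x U hx hU
    obtain ⟨γ, hγ⟩ := hU x hx
    exact ⟨Nb γ x, ⟨isClosed_Nb _ _, isOpen_Nb _ _⟩, self_mem_Nb _ _, hγ⟩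

lemma finite_of_isCompact (h : OmLike Ω) {K : Set (Pt S L)} (hK : IsCompact K) : K.Finite := by
  by_contra hinf
  have hinf' : K.Infinite := hinf
  let f : ℕ ↪ K := hinf'.natEmbedding
  have hsep : ∀ m n : ℕ, ∃ γ, m ≠ n → (f m).1 ∉ Nb γ (f n).1 := by
    intro m n
    by_cases hmn : m = n
    · exact ⟨Classical.arbitrary Ω, fun h' => absurd hmn h'⟩
    · have : (f m).1 ≠ (f n).1 := by
        intro h'
        exact hmn (f.injective (Subtype.ext h'))
      obtain ⟨γ, hγ⟩ := exists_sep h this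
      exact ⟨γ, fun _ => hγ⟩
  choose γ hγ using hsep
  obtain ⟨b, hb⟩ := h.bdd (Set.range fun p : ℕ × ℕ => γ p.1 p.2) (Set.countable_range _)
  have hb' : ∀ m n, γ m n < b := fun m n => hb _ ⟨(m, n), rfl⟩
  obtain ⟨t, _, ht⟩ := hK.elim_nhds_subcover (fun x => Nb b x)
    (fun x _ => (isOpen_Nb b x).mem_nhds (self_mem_Nb b x))
  have hx : ∀ n : ℕ, ∃ x : t, (f n).1 ∈ Nb b x.1 := by
    intro n
    have := ht (f n).2
    simp only [Set.mem_iUnion] at this
    obtain ⟨x, hx, hn⟩ := this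
    exact ⟨⟨x, hx⟩, hn⟩
  choose x hx using hx
  obtain ⟨m, n, hmn, he⟩ := Finite.exists_ne_map_eq_of_infinite x
  apply hγ m n hmn
  apply Nb_anti (hb' m n).le
  have h1 := hx m
  have h2 := hx n
  rw [← he] at h2
  exact Eq.trans h1 (Eq.symm h2)

/-- The points bounded by `β`. -/
def Bd (S : Set Ω) (L : Ω → Set Ω) (β : Ω) : Set (Pt S L) :=
  {x | (x.1.Finite ∧ x.1 ⊆ Iic β) ∨ ∃ γ ≤ β, x.1 = L γ}

lemma Bd_mono {β β' : Ω} (hle : β ≤ β') : Bd S L β ⊆ Bd S L β' := by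
  rintro x (⟨h1, h2⟩ | ⟨γ, h1, h2⟩)
  · exact Or.inl ⟨h1, h2.trans (Set.Iic_subset_Iic.2 hle)⟩
  · exact Or.inr ⟨γ, h1.trans hle, h2⟩

lemma Bd_countable (h : OmLike Ω) (β : Ω) : (Bd S L β).Countable := by
  have h1 : {t : Set Ω | t.Finite ∧ t ⊆ Iic β}.Countable :=
    Set.countable_ofPred_finite_subset (h.ctblc β)
  have h2 : (L '' (Iic β)).Countable := (h.ctblc β).image L
  have h3 : Bd S L β ⊆ Subtype.val ⁻¹' ({t : Set Ω | t.Finite ∧ t ⊆ Iic β} ∪ L '' (Iic β)) := by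
    rintro x (hx | ⟨γ, h1, h2⟩)
    · exact Or.inl hx
    · exact Or.inr ⟨γ, h1, h2.symm⟩
  exact ((h1.union h2).preimage_of_injOn Subtype.val_injective.injOn).mono h3

lemma countable_finsets {α : Type*} {s : Set α} (hs : s.Countable) :
    {F : Finset α | (F : Set α) ⊆ s}.Countable := by
  have h1 : {t : Set α | t.Finite ∧ t ⊆ s}.Countable := Set.countable_ofPred_finite_subset hs
  refine (h1.preimage_of_injOn (f := fun F : Finset α => (F : Set α))
    Finset.coe_injective.injOn).mono ?_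
  intro F hF
  exact ⟨F.finite_toSet, hF⟩

/-- Below a point outside `S`, every node is the trace of a bounded point. -/
lemma exists_trace {δ : Ω} (hδ : Lim δ) (hδS : δ ∉ S)
    (hL : ∀ δ, Lim δ → IsLadder (L δ) δ) (y : Pt S L) :
    ∃ β < δ, ∃ x ∈ Bd S L β, y ∈ Nb δ x := by
  have hfin : (y.1 ∩ Iio δ).Finite → ∃ β < δ, ∃ x ∈ Bd S L β, y ∈ Nb δ x := by
    intro hf
    obtain ⟨β, hβ, hb⟩ := hδ.exists_above_finite hf (fun x hx => hx.2)
    refine ⟨β, hβ, ⟨y.1 ∩ Iio δ, Or.inl hf⟩, Or.inl ⟨hf, fun a ha => (hb a ha).le⟩, ?_⟩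
    change y.1 ∩ Iio δ = (y.1 ∩ Iio δ) ∩ Iio δ
    rw [Set.inter_assoc, Set.inter_self]
  rcases y.2 with hy | ⟨γ, hγS, hγ, hy⟩
  · exact hfin (hy.subset Set.inter_subset_left)
  · rcases lt_trichotomy γ δ with hlt | heq | hgt
    · exact ⟨γ, hlt, y, Or.inr ⟨γ, le_rfl, hy⟩, self_mem_Nb _ _⟩
    · exact absurd (heq ▸ hγS) hδS
    · apply hfin
      rw [hy]
      exact (hL γ hγ).2.2 δ hgt

/-- The key Lindelöf-type property of finite powers. -/
lemma omega_lindelof (h : OmLike Ω) (hS : Stat Sᶜ)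
    (hL : ∀ δ, Lim δ → IsLadder (L δ) δ)
    (W : Finset (Pt S L) → Set (Pt S L)) (hW : ∀ F, IsOpen (W F))
    (hWF : ∀ F : Finset (Pt S L), (F : Set (Pt S L)) ⊆ W F) :
    ∃ Fs : ℕ → Finset (Pt S L), ∀ G : Finset (Pt S L), ∃ k, (G : Set (Pt S L)) ⊆ W (Fs k) := by
  classical
  have hα : ∀ F : Finset (Pt S L), ∃ γ, ∀ x ∈ F, Nb γ x ⊆ W F := by
    intro F
    have h1 : ∀ x : F, ∃ γ, Nb γ x.1 ⊆ W F := fun x => hW F x.1 (hWF F x.2)
    choose γ hγ using h1
    obtain ⟨b, hb⟩ := h.bdd (Set.range γ) (Set.countable_range γ)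
    refine ⟨b, fun x hx => ?_⟩
    exact (Nb_anti (hb _ (Set.mem_range_self ⟨x, hx⟩)).le x).trans (hγ ⟨x, hx⟩)
  choose α hα using hα
  have hG : ∀ β : Ω, ∃ b, ∀ F : Finset (Pt S L), (F : Set (Pt S L)) ⊆ Bd S L β → α F < b := by
    intro β
    obtain ⟨b, hb⟩ := h.bdd (α '' {F : Finset (Pt S L) | (F : Set (Pt S L)) ⊆ Bd S L β})
      ((countable_finsets (Bd_countable h β)).image α)
    exact ⟨b, fun F hF => hb _ (Set.mem_image_of_mem α hF)⟩
  choose G hG using hG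
  obtain ⟨δ, hδS, hδ, hcl⟩ := hS.exists_lim h
    (fun l => match l with | [] => Classical.arbitrary Ω | β :: _ => G β)
  have hGδ : ∀ β < δ, G β < δ := fun β hβ => hcl [β] (by simpa using hβ)
  -- the countable family
  have hcount : (⋃ β ∈ Iio δ, {F : Finset (Pt S L) | (F : Set (Pt S L)) ⊆ Bd S L β}).Countable := by
    apply Set.Countable.biUnion (h.ctbl δ)
    intro β _
    exact countable_finsets (Bd_countable h β)
  have hne : (⋃ β ∈ Iio δ, {F : Finset (Pt S L) | (F : Set (Pt S L)) ⊆ Bd S L β}).Nonempty := by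
    obtain ⟨β, hβ⟩ := hδ.1
    refine ⟨∅, ?_⟩
    simp only [Set.mem_iUnion]
    exact ⟨β, hβ, by simp⟩
  obtain ⟨Fs, hFs⟩ := hcount.exists_eq_range hne
  refine ⟨Fs, fun G' => ?_⟩
  have htr : ∀ y : Pt S L, ∃ β < δ, ∃ x ∈ Bd S L β, y ∈ Nb δ x :=
    fun y => exists_trace hδ hδS hL y
  choose β hβ x hx hyx using htr
  obtain ⟨β', hβ', hββ'⟩ := hδ.exists_above_finite (s := β '' (G' : Set (Pt S L)))
    (G'.finite_toSet.image β) (by rintro _ ⟨y, _, rfl⟩; exact hβ y)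
  set F : Finset (Pt S L) := G'.image x with hF
  have hFB : (F : Set (Pt S L)) ⊆ Bd S L β' := by
    intro z hz
    rw [hF, Finset.mem_coe, Finset.mem_image] at hz
    obtain ⟨y, hy, rfl⟩ := hz
    exact Bd_mono (hββ' _ (Set.mem_image_of_mem β (Finset.mem_coe.2 hy))).le (hx y)
  have hmem : F ∈ Set.range Fs := by
    rw [← hFs]
    simp only [Set.mem_iUnion]
    exact ⟨β', hβ', hFB⟩
  obtain ⟨k, hk⟩ := hmem
  refine ⟨k, ?_⟩
  rw [hk]
  intro y hy
  have h1 : α F < δ := (hG β' F hFB).trans (hGδ β' hβ')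
  have h2 : x y ∈ F := by rw [hF]; exact Finset.mem_image_of_mem x (Finset.mem_coe.1 hy)
  exact hα F (x y) h2 (Nb_anti h1.le _ (hyx y))

lemma lindelof (h : OmLike Ω) (hS : Stat Sᶜ)
    (hL : ∀ δ, Lim δ → IsLadder (L δ) δ) : LindelofSpace (Pt S L) := by
  classical
  refine ⟨isLindelof_of_countable_subcover ?_⟩
  intro ι U hU hcov
  have : ∀ x : Pt S L, ∃ i, x ∈ U i := by
    intro x
    simpa using hcov (Set.mem_univ x)
  choose i hi using this
  obtain ⟨Fs, hFs⟩ := omega_lindelof h hS hL (fun F => ⋃ x ∈ F, U (i x))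
    (fun F => isOpen_biUnion fun x _ => hU _)
    (fun F x hx => Set.mem_biUnion (Finset.mem_coe.1 hx) (hi x))
  refine ⟨⋃ k, i '' (Fs k : Set (Pt S L)), ?_, ?_⟩
  · exact Set.countable_iUnion fun k => ((Fs k).finite_toSet.image i).countable
  · intro x _
    obtain ⟨k, hk⟩ := hFs {x}
    have hx : x ∈ ⋃ y ∈ Fs k, U (i y) := hk (by simp)
    simp only [Set.mem_iUnion] at hx
    obtain ⟨y, hy, hxy⟩ := hx
    refine Set.mem_biUnion (x := i y) ?_ hxy
    exact Set.mem_iUnion.2 ⟨k, Set.mem_image_of_mem i (Finset.mem_coe.2 hy)⟩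

lemma isKCover_of_finset (h : OmLike Ω) {C : Set (Set (Pt S L))} (hC : ∀ U ∈ C, IsOpen U)
    (hF : ∀ F : Finset (Pt S L), ∃ U ∈ C, (F : Set (Pt S L)) ⊆ U) : IsKCover C := by
  refine ⟨hC, ?_, ?_⟩
  · ext x
    simp only [Set.mem_univ, iff_true]
    obtain ⟨U, hU, hxU⟩ := hF {x}
    exact ⟨U, hU, hxU (by simp)⟩
  · intro K hK
    have hfin := finite_of_isCompact h hK
    obtain ⟨U, hU, hKU⟩ := hF hfin.toFinset
    exact ⟨U, hU, by simpa using hKU⟩

/-- P1 has no winning strategy in `G_1(K, K)`. -/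
lemma not_p1 (h : OmLike Ω) (hS : Stat Sᶜ)
    (hL : ∀ δ, Lim δ → IsLadder (L δ) δ) : ¬ P1WinsGOne (Pt S L) := by
  classical
  rintro ⟨σ, hσ, hwin⟩
  have hu : ∀ s : List (Set (Pt S L)), ∃ u : ℕ → Set (Pt S L), (∀ n, u n ∈ σ s) ∧
      ∀ F : Finset (Pt S L), ∃ n, (F : Set (Pt S L)) ⊆ u n := by
    intro s
    have h1 : ∀ F : Finset (Pt S L), ∃ U ∈ σ s, (F : Set (Pt S L)) ⊆ U := fun F =>
      (hσ s).2.2 F F.finite_toSet.isCompact
    choose V hV hFV using h1
    obtain ⟨Fs, hFs⟩ := omega_lindelof h hS hL V (fun F => (hσ s).1 _ (hV F)) hFV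
    exact ⟨fun n => V (Fs n), fun n => hV _, hFs⟩
  choose u hu1 hu2 using hu
  let H : List ℕ → List (Set (Pt S L)) := fun t =>
    List.rec [] (fun n _ r => r ++ [u r n]) t
  have hH0 : H [] = [] := rfl
  have hHs : ∀ n t, H (n :: t) = H t ++ [u (H t) n] := fun n t => rfl
  have hf : ∀ (F : Finset (Pt S L)) (t : List ℕ), ∃ n, (F : Set (Pt S L)) ⊆ u (H t) n :=
    fun F t => hu2 (H t) F
  choose f hf using hf
  obtain ⟨Fs, hFs⟩ := omega_lindelof h hS hL (fun F => ⋂ t : List ℕ, u (H t) (f F t))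
    (fun F => isOpen_iInter h fun t => (hσ _).1 _ (hu1 _ _))
    (fun F => Set.subset_iInter fun t => hf F t)
  let T : ℕ → List ℕ := fun k => Nat.rec [] (fun j t => f (Fs j) t :: t) k
  have hT0 : T 0 = [] := rfl
  have hTs : ∀ k, T (k + 1) = f (Fs k) (T k) :: T k := fun k => rfl
  set U : ℕ → Set (Pt S L) := fun k => u (H (T k)) (f (Fs k) (T k)) with hU
  have hhist : ∀ k, (List.range k).map U = H (T k) := by
    intro k
    induction k with
    | zero => rfl
    | succ k ih =>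
      rw [List.range_succ, List.map_append, ih, hTs, hHs]
      rfl
  refine hwin U ?_ ?_
  · intro n
    rw [hhist]
    exact hu1 _ _
  · apply isKCover_of_finset h
    · rintro _ ⟨n, rfl⟩
      exact (hσ _).1 _ (hu1 _ _)
    · intro F
      obtain ⟨k, hk⟩ := hFs F
      refine ⟨U k, Set.mem_range_self k, hk.trans ?_⟩
      exact Set.iInter_subset _ (T k)

/-- The cover of level `γ`. -/
def Lev (S : Set Ω) (L : Ω → Set Ω) (γ : Ω) : Set (Set (Pt S L)) :=
  {V | ∃ F : Finset (Pt S L), V = ⋃ x ∈ F, Nb γ x}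

lemma isKCover_Lev (h : OmLike Ω) (γ : Ω) : IsKCover (Lev S L γ) := by
  apply isKCover_of_finset h
  · rintro _ ⟨F, rfl⟩
    exact isOpen_biUnion fun x _ => isOpen_Nb _ _
  · intro F
    refine ⟨_, ⟨F, rfl⟩, ?_⟩
    intro x hx
    exact Set.mem_biUnion (Finset.mem_coe.1 hx) (self_mem_Nb γ x)

/-- P2 has no winning strategy in `G_fin(K, K)`. -/
lemma not_p2 [WellFoundedLT Ω] (h : OmLike Ω) (hS : Stat S)
    (hL : ∀ δ, Lim δ → IsLadder (L δ) δ) : ¬ P2WinsGFin (Pt S L) := by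
  classical
  rintro ⟨τ, hτ, hwin⟩
  let A : List Ω → Ω → Set (Set (Pt S L)) := fun l γ => τ (l.map (Lev S L) ++ [Lev S L γ])
  have hA : ∀ l γ, (A l γ).Finite ∧ A l γ ⊆ Lev S L γ := by
    intro l γ
    apply hτ
    · intro D hD
      obtain ⟨γ', _, rfl⟩ := List.mem_map.1 hD
      exact isKCover_Lev h γ'
    · exact isKCover_Lev h γ
  have hm : ∀ l γ, ∃ m, Lim γ → (m < γ ∧ ∀ V ∈ A l γ, ∀ y ∈ V, (y.1 ∩ Iio γ).Finite →
      y.1 ∩ Iio γ ⊆ Iic m) := by
    intro l γ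
    by_cases hγ : Lim γ
    · -- a finite set of nodes covers the answer
      have hH : ∃ H : Finset (Pt S L), ∀ V ∈ A l γ, V ⊆ ⋃ x ∈ H, Nb γ x := by
        obtain ⟨hfin, hsub⟩ := hA l γ
        have : ∀ V : Set (Pt S L), ∃ F : Finset (Pt S L), V ∈ A l γ → V = ⋃ x ∈ F, Nb γ x := by
          intro V
          by_cases hV : V ∈ A l γ
          · obtain ⟨F, hF⟩ := hsub hV
            exact ⟨F, fun _ => hF⟩
          · exact ⟨∅, fun h' => absurd h' hV⟩
        choose F hF using this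
        refine ⟨hfin.toFinset.biUnion F, ?_⟩
        intro V hV y hy
        rw [hF V hV] at hy
        simp only [Set.mem_iUnion] at hy ⊢
        obtain ⟨x, hx, hxy⟩ := hy
        exact ⟨x, Finset.mem_biUnion.2 ⟨V, hfin.mem_toFinset.2 hV, hx⟩, hxy⟩
      obtain ⟨H, hH⟩ := hH
      set M : Set Ω := ⋃ x ∈ H.filter (fun x => (x.1 ∩ Iio γ).Finite), (x.1 ∩ Iio γ) with hM
      have hMfin : M.Finite := by
        rw [hM]
        apply Set.Finite.biUnion (Finset.finite_toSet _)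
        intro x hx
        exact (Finset.mem_filter.1 hx).2
      obtain ⟨m, hmγ, hmM⟩ := hγ.exists_above_finite hMfin (by
        intro a ha
        rw [hM] at ha
        simp only [Set.mem_iUnion] at ha
        obtain ⟨x, _, hx⟩ := ha
        exact hx.2)
      refine ⟨m, fun _ => ⟨hmγ, ?_⟩⟩
      intro V hV y hy hyfin a ha
      have hyH := hH V hV hy
      simp only [Set.mem_iUnion] at hyH
      obtain ⟨x, hx, hxy⟩ := hyH
      have hxy' : y.1 ∩ Iio γ = x.1 ∩ Iio γ := hxy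
      have haM : a ∈ M := by
        rw [hM]
        simp only [Set.mem_iUnion]
        refine ⟨x, Finset.mem_filter.2 ⟨hx, ?_⟩, ?_⟩
        · rw [← hxy']; exact hyfin
        · rw [← hxy']; exact ha
      exact (hmM a haM).le
    · exact ⟨γ, fun h' => absurd h' hγ⟩
  choose m hm using hm
  -- pressing down
  have hpd : ∀ l : List Ω, ∃ β, ∀ ζ, ∃ γ, ζ < γ ∧ Lim γ ∧ m l γ ≤ β := by
    intro l
    by_contra hcon
    push Not at hcon
    choose ζ hζ using hcon
    obtain ⟨δ, _, hδ, hcl⟩ := exists_closed h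
      (fun l => match l with | [] => Classical.arbitrary Ω | β :: _ => ζ β)
      (Classical.arbitrary Ω)
    have h1 : m l δ < δ := (hm l δ hδ).1
    have h2 : ζ (m l δ) < δ := hcl [m l δ] (by simpa using h1)
    exact lt_irrefl _ (hζ (m l δ) δ h2 hδ)
  choose β hβ using hpd
  choose ν hν1 hν2 hν3 using hβ
  obtain ⟨δ, hδS, hδ, hcl⟩ := hS.exists_lim h
    (fun l => max (β l) (match l with | [] => β [] | ζ :: l' => ν l' ζ))
  have hβδ : ∀ l : List Ω, (∀ x ∈ l, x < δ) → β l < δ := fun l hl =>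
    lt_of_le_of_lt (le_max_left _ _) (hcl l hl)
  have hνδ : ∀ (l : List Ω) (ζ : Ω), (∀ x ∈ l, x < δ) → ζ < δ → ν l ζ < δ := by
    intro l ζ hl hζ
    have := hcl (ζ :: l) (by
      intro x hx
      rcases List.mem_cons.1 hx with rfl | hx
      · exact hζ
      · exact hl x hx)
    exact lt_of_le_of_lt (le_max_right _ _) this
  have hlad := hL δ hδ
  have ha : ∀ l : List Ω, ∃ a, (∀ x ∈ l, x < δ) → (a ∈ L δ ∧ β l < a) := by
    intro l
    by_cases hl : ∀ x ∈ l, x < δ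
    · obtain ⟨a, ha1, ha2⟩ := hlad.2.1 (β l) (hβδ l hl)
      exact ⟨a, fun _ => ⟨ha1, ha2⟩⟩
    · exact ⟨δ, fun h' => absurd h' hl⟩
  choose a ha using ha
  let ls : ℕ → List Ω := fun n => Nat.rec [] (fun _ l => l ++ [ν l (a l)]) n
  have hls0 : ls 0 = [] := rfl
  have hlss : ∀ n, ls (n + 1) = ls n ++ [ν (ls n) (a (ls n))] := fun n => rfl
  have hlsδ : ∀ n, ∀ x ∈ ls n, x < δ := by
    intro n
    induction n with
    | zero => intro x hx; rw [hls0] at hx; simp at hx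
    | succ n ih =>
      intro x hx
      rw [hlss, List.mem_append] at hx
      rcases hx with hx | hx
      · exact ih x hx
      · rw [List.mem_singleton] at hx
        rw [hx]
        exact hνδ _ _ ih (hlad.1 (ha _ ih).1)
  set g : ℕ → Ω := fun n => ν (ls n) (a (ls n)) with hg
  have hmap : ∀ n, (List.range n).map g = ls n := by
    intro n
    induction n with
    | zero => rfl
    | succ n ih =>
      rw [List.range_succ, List.map_append, ih, hlss]
      rfl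
  have hcov := hwin (fun n => Lev S L (g n)) (fun n => isKCover_Lev h _)
  set y : Pt S L := ⟨L δ, Or.inr ⟨δ, hδS, hδ, rfl⟩⟩ with hy
  have hyc : y ∈ ⋃₀ (⋃ n, τ ((List.range (n + 1)).map (fun n => Lev S L (g n)))) := by
    rw [hcov.2.1]; exact Set.mem_univ y
  obtain ⟨V, hV, hyV⟩ := hyc
  obtain ⟨n, hn⟩ := Set.mem_iUnion.1 hV
  have hVA : V ∈ A (ls n) (g n) := by
    have e : (List.range (n + 1)).map (fun n => Lev S L (g n))
        = (ls n).map (Lev S L) ++ [Lev S L (g n)] := by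
      rw [List.range_succ, List.map_append, ← hmap n, List.map_map]
      rfl
    rw [e] at hn
    exact hn
  have hgδ : g n < δ := by
    rw [hg]; exact hνδ _ _ (hlsδ n) (hlad.1 (ha _ (hlsδ n)).1)
  have hfin : (y.1 ∩ Iio (g n)).Finite := hlad.2.2 (g n) hgδ
  have hsub := (hm (ls n) (g n) (hν2 _ _)).2 V hVA y hyV hfin
  have h1 : a (ls n) ∈ y.1 ∩ Iio (g n) := ⟨(ha _ (hlsδ n)).1, hν1 _ _⟩
  have h2 : a (ls n) ≤ m (ls n) (g n) := hsub h1
  have h3 : m (ls n) (g n) ≤ β (ls n) := hν3 _ _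
  exact absurd ((ha _ (hlsδ n)).2) (not_lt.2 (h2.trans h3))

end Space

/-! ### The first uncountable ordinal -/

open Cardinal Ordinal in
lemma exists_omLike : ∃ (Ω : Type) (_ : LinearOrder Ω) (_ : WellFoundedLT Ω),
    OmLike Ω ∧ Nonempty Ω := by
  refine ⟨(Cardinal.aleph 1).ord.ToType, inferInstance, inferInstance, ?_, ?_⟩
  · have hc : ∀ a : (Cardinal.aleph 1).ord.ToType, (Iio a).Countable := by
      intro a
      rw [Cardinal.countable_iff_lt_aleph_one]
      exact mk_Iio_toType_ord_lt a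
    refine ⟨hc, ?_⟩
    intro s hs
    by_contra hcon
    push Not at hcon
    have hcc : ∀ a : (Cardinal.aleph 1).ord.ToType, (Iic a).Countable := by
      intro a
      have : Iic a = insert a (Iio a) := by
        ext x; simp [le_iff_eq_or_lt]
      rw [this]
      exact (hc a).insert a
    have huniv : (Set.univ : Set (Cardinal.aleph 1).ord.ToType) = ⋃ x ∈ s, Iic x := by
      ext b
      simp only [Set.mem_univ, Set.mem_iUnion, true_iff]
      obtain ⟨x, hx, hbx⟩ := hcon b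
      exact ⟨x, hx, hbx⟩
    have hcu : (Set.univ : Set (Cardinal.aleph 1).ord.ToType).Countable := by
      rw [huniv]
      exact hs.biUnion fun x _ => hcc x
    rw [Cardinal.countable_iff_lt_aleph_one, Cardinal.mk_univ, Cardinal.mk_ord_toType] at hcu
    exact lt_irrefl _ hcu
  · rw [← Cardinal.mk_ne_zero_iff, Cardinal.mk_ord_toType]
    exact (Cardinal.aleph_pos 1).ne'

/-- The main construction: a zero-dimensional Hausdorff Lindelöf `P`-space on which both games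
are undetermined. -/
theorem main : ∃ (X : Type) (_ : TopologicalSpace X),
    T2Space X ∧ LindelofSpace X ∧
    TopologicalSpace.IsTopologicalBasis {s : Set X | IsClopen s} ∧
    (∀ U : ℕ → Set X, (∀ n, IsOpen (U n)) → IsOpen (⋂ n, U n)) ∧
    ¬ P1WinsGOne X ∧ ¬ P2WinsGOne X ∧ ¬ P1WinsGFin X ∧ ¬ P2WinsGFin X := by
  obtain ⟨Ω, _, _, h, _⟩ := exists_omLike
  obtain ⟨S, hS, hSc⟩ := exists_bistationary h
  have hlad : ∀ δ : Ω, ∃ A : Set Ω, Lim δ → IsLadder A δ := by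
    intro δ
    by_cases hδ : Lim δ
    · obtain ⟨A, hA⟩ := exists_ladder h hδ
      exact ⟨A, fun _ => hA⟩
    · exact ⟨∅, fun h' => absurd h' hδ⟩
  choose L hL using hlad
  have h1 := not_p1 h hSc hL
  have h2 := not_p2 h hS hL
  exact ⟨Pt S L, inferInstance, t2 h, lindelof h hSc hL, basis_clopen,
    fun U hU => isOpen_iInter h hU, h1, not_p2_one_of_not_p2_fin h2,
    not_p1_fin_of_not_p1_one h1, h2⟩

end Pool.Agent.Helper48.KGame
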