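import Mathlib

/-!
Definitions for the selection games `G_1(K_X, K_X)` and `G_fin(K_X, K_X)` on `k`-covers.
-/

set_option autoImplicit false

namespace Pool.Agent.Helper48.KGame

/-- A family of open sets with union the whole space such that every compact set is contained in
some member of the family. -/
def IsKCover {X : Type*} [TopologicalSpace X] (C : Set (Set X)) : Prop :=
  (∀ U ∈ C, IsOpen U) ∧ ⋃₀ C = Set.univ ∧ ∀ K : Set X, IsCompact K → ∃ U ∈ C, K ⊆ U

/-- P1 has a winning strategy in `G_1(K_X, K_X)`. The list is the list of the earlier moves of P2,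
in the order in which they were played. -/
def P1WinsGOne (X : Type*) [TopologicalSpace X] : Prop :=
  ∃ σ : List (Set X) → Set (Set X), (∀ s, IsKCover (σ s)) ∧
    ∀ U : ℕ → Set X, (∀ n, U n ∈ σ ((List.range n).map U)) → ¬ IsKCover (Set.range U)

/-- P2 has a winning strategy in `G_1(K_X, K_X)`. The list is the nonempty list of the moves of P1
made so far, in the order in which they were played. -/
def P2WinsGOne (X : Type*) [TopologicalSpace X] : Prop :=
  ∃ τ : List (Set (Set X)) → Set X,
    (∀ (s : List (Set (Set X))) (C : Set (Set X)), (∀ D ∈ s, IsKCover D) → IsKCover C →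
      τ (s ++ [C]) ∈ C) ∧
    ∀ C : ℕ → Set (Set X), (∀ n, IsKCover (C n)) →
      IsKCover (Set.range fun n => τ ((List.range (n + 1)).map C))

/-- P1 has a winning strategy in `G_fin(K_X, K_X)`. -/
def P1WinsGFin (X : Type*) [TopologicalSpace X] : Prop :=
  ∃ σ : List (Set (Set X)) → Set (Set X), (∀ s, IsKCover (σ s)) ∧
    ∀ F : ℕ → Set (Set X), (∀ n, (F n).Finite ∧ F n ⊆ σ ((List.range n).map F)) →
      ¬ IsKCover (⋃ n, F n)

/-- P2 has a winning strategy in `G_fin(K_X, K_X)`. -/
def P2WinsGFin (X : Type*) [TopologicalSpace X] : Prop :=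
  ∃ τ : List (Set (Set X)) → Set (Set X),
    (∀ (s : List (Set (Set X))) (C : Set (Set X)), (∀ D ∈ s, IsKCover D) → IsKCover C →
      (τ (s ++ [C])).Finite ∧ τ (s ++ [C]) ⊆ C) ∧
    ∀ C : ℕ → Set (Set X), (∀ n, IsKCover (C n)) →
      IsKCover (⋃ n, τ ((List.range (n + 1)).map C))

end Pool.Agent.Helper48.KGame
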